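import Pool.Agent.W120.WM.Defs2

set_option autoImplicit false

open MeasureTheory Filter Topology Set

namespace Pool.Agent.W305.WM

open Pool.Agent.H24R2.JP (XX)
open Pool.Agent.W120.WM

theorem core {Na Nb Aa Ab Wa Wb Wt Wd Z L P C2 E θ : ℝ} (hNa : 0 < Na) (hNb : 0 < Nb)
    (hAa : 0 < Aa) (hAb : 0 < Ab) (hWa : 0 < Wa) (hWb : 0 < Wb) (hZ : 0 ≤ Z) (hL : 0 < L)
    (key : Na * Nb * ((4 * Wa / Aa) ^ θ * (4 * Wb / Ab) ^ (1 - θ)) ≤ L * (4 * Wd * Z))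
    (h1 : Wd ≤ C2 * P * Wt) (hC2 : 0 < C2) (hP : 0 < P) (h2 : Wt ≤ Wa ^ θ * Wb ^ (1 - θ) * E)
    (hE : 0 < E) (θ0 : 0 ≤ θ) (θ1 : θ ≤ 1) :
    Z⁻¹ ≤ C2 * E * P * (L / (Na * Nb)) * (Aa + Ab) := by
  set G := Wa ^ θ * Wb ^ (1 - θ) with hG
  set H := Aa ^ θ * Ab ^ (1 - θ) with hH
  have hG0 : 0 < G := mul_pos (Real.rpow_pos_of_pos hWa _) (Real.rpow_pos_of_pos hWb _)
  have hH0 : 0 < H := mul_pos (Real.rpow_pos_of_pos hAa _) (Real.rpow_pos_of_pos hAb _)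
  have e4 : (4 : ℝ) ^ θ * (4 : ℝ) ^ (1 - θ) = 4 := by
    rw [← Real.rpow_add (by norm_num)]
    simp
  have e1 : (4 * Wa / Aa) ^ θ * (4 * Wb / Ab) ^ (1 - θ) = 4 * G / H := by
    rw [Real.div_rpow (by positivity) hAa.le, Real.div_rpow (by positivity) hAb.le,
      Real.mul_rpow (by norm_num) hWa.le, Real.mul_rpow (by norm_num) hWb.le, hG, hH, ← e4]
    rw [div_mul_div_comm, e4]
    congr 1
    calc (4 : ℝ) ^ θ * Wa ^ θ * (4 ^ (1 - θ) * Wb ^ (1 - θ)) =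
        ((4 : ℝ) ^ θ * (4 : ℝ) ^ (1 - θ)) * (Wa ^ θ * Wb ^ (1 - θ)) := by ring
      _ = _ := by rw [e4]
  rw [e1] at key
  have h3 : Wd ≤ C2 * P * (G * E) :=
    h1.trans (mul_le_mul_of_nonneg_left h2 (by positivity))
  have h4 : L * (4 * Wd * Z) ≤ L * (4 * (C2 * P * (G * E)) * Z) := by gcongr
  have h5 : Na * Nb ≤ H * L * C2 * P * E * Z := by
    have h6 := key.trans h4
    have h7 : Na * Nb * (4 * G / H) * (H / (4 * G)) = Na * Nb := by
      field_simp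
    have h8 : L * (4 * (C2 * P * (G * E)) * Z) * (H / (4 * G)) = H * L * C2 * P * E * Z := by
      field_simp
    rw [← h7, ← h8]
    exact mul_le_mul_of_nonneg_right h6 (by positivity)
  have hNN : 0 < Na * Nb := mul_pos hNa hNb
  have hZ0 : 0 < Z := by
    rcases hZ.lt_or_eq with h | h
    · exact h
    · rw [← h, mul_zero] at h5
      exact absurd h5 (not_le.mpr hNN)
  have hHs : H ≤ Aa + Ab := by
    have h9 := Real.geom_mean_le_arith_mean2_weighted θ0 (by linarith : 0 ≤ 1 - θ) hAa.le hAb.le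
      (by ring)
    have h10 : θ * Aa ≤ Aa := by nlinarith
    have h11 : (1 - θ) * Ab ≤ Ab := by nlinarith
    linarith
  have h12 : Z⁻¹ ≤ C2 * E * P * (L / (Na * Nb)) * H := by
    rw [inv_le_iff_one_le_mul₀ hZ0]
    have h13 : C2 * E * P * (L / (Na * Nb)) * H * Z = (H * L * C2 * P * E * Z) / (Na * Nb) := by
      field_simp
    rw [h13, le_div_iff₀ hNN, one_mul]
    exact h5
  exact h12.trans (mul_le_mul_of_nonneg_left hHs (by positivity))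

theorem PT (hLINK : U_LINK) (hKEY : U_KEY) (hSTIR : U_STIR) (hSHIFT : U_SHIFT) (hDBL : U_DBL)
    (hINTERP : U_INTERP) : U_PT := by
  intro hRH
  obtain ⟨-, L2, L3⟩ := hLINK
  obtain ⟨C1, hC1, stir⟩ := hSTIR
  obtain ⟨C2, hC2, shift⟩ := hSHIFT
  obtain ⟨-, C0, hC0, dbl⟩ := hDBL hRH
  obtain ⟨C3, hC3, interp⟩ := hINTERP C0 hC0
  refine ⟨C2 * Real.exp (C3 + 2 * C1), by positivity, ?_⟩
  intro a b t δ hab hat htb hδ hδ2 hda hdb
  obtain ⟨hlt, hza, hzb, -⟩ := id hab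
  have hba : 0 < b - a := by linarith
  set θ := (b - t) / (b - a) with hθ
  have hθe : θ * (b - a) = b - t := by rw [hθ]; field_simp
  have θ0 : 0 ≤ θ := div_nonneg (by linarith) hba.le
  have θ1 : θ ≤ 1 := by rw [hθ, div_le_one hba]; linarith
  have key := hKEY hRH a b t δ θ hab hat htb hδ.le hθe
  have half : ∀ y : ℝ, 0 < ‖(⟨1 / 2, y⟩ : ℂ)‖ := by
    intro y
    rw [norm_pos_iff]
    intro h
    have := congrArg Complex.re h
    norm_num at this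
  have acp : ∀ y : ℝ, deriv riemannZeta (⟨1 / 2, y⟩ : ℂ) ≠ 0 → 0 < Ac y := by
    intro y hy
    unfold Ac
    rw [norm_mul]
    exact div_pos one_pos (mul_pos (half y) (norm_pos_iff.mpr hy))
  have xx : ∀ y : ℝ, riemannZeta (⟨1 / 2, y⟩ : ℂ) = 0 → deriv riemannZeta (⟨1 / 2, y⟩ : ℂ) ≠ 0 →
      ‖deriv XX (⟨0, y⟩ : ℂ)‖ = 4 * Wg 0 y / Ac y := by
    intro y hy hd
    rw [L3 y hy]
    unfold Ac
    rw [norm_mul]
    have h1 := half y
    have h2 := norm_pos_iff.mpr hd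
    field_simp
  rw [xx a hza hda, xx b hzb hdb, L2 δ t hδ.le hδ2] at key
  have hNa : 0 < ‖(⟨δ, t - a⟩ : ℂ)‖ := by
    rw [norm_pos_iff]
    intro h
    exact hδ.ne' (congrArg Complex.re h)
  have hNb : 0 < ‖(⟨δ, t - b⟩ : ℂ)‖ := by
    rw [norm_pos_iff]
    intro h
    exact hδ.ne' (congrArg Complex.re h)
  have hWa := (stir a).1
  have hWb := (stir b).1
  have hWt := (stir t).1
  have h2 : Wg 0 t ≤ Wg 0 a ^ θ * Wg 0 b ^ (1 - θ) * Real.exp (C3 + 2 * C1) := by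
    obtain ⟨d1, d2, d3⟩ := dbl a b hab
    have h3 := interp a b t θ hat htb hθe d1 d2 d3
    have ea := abs_le.mp (stir a).2
    have eb := abs_le.mp (stir b).2
    have et := abs_le.mp (stir t).2
    rw [← Real.exp_log hWt, Real.rpow_def_of_pos hWa, Real.rpow_def_of_pos hWb, ← Real.exp_add,
      ← Real.exp_add, Real.exp_le_exp]
    have h4 : θ * ph a ≤ θ * (Real.log (Wg 0 a) + C1) :=
      mul_le_mul_of_nonneg_left (by linarith [ea.1]) θ0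
    have h5 : (1 - θ) * ph b ≤ (1 - θ) * (Real.log (Wg 0 b) + C1) :=
      mul_le_mul_of_nonneg_left (by linarith [eb.1]) (by linarith)
    nlinarith [et.2]
  have key' : ‖(⟨δ, t - a⟩ : ℂ)‖ * ‖(⟨δ, t - b⟩ : ℂ)‖ *
      ((4 * Wg 0 a / Ac a) ^ θ * (4 * Wg 0 b / Ac b) ^ (1 - θ)) ≤ (b - a) *
      (4 * Wg δ t * (‖(⟨1 / 2 + δ, t⟩ : ℂ)‖ * ‖riemannZeta (⟨1 / 2 + δ, t⟩ : ℂ)‖)) := by
    refine key.trans (le_of_eq ?_)
    ring
  have hP : 0 < (3 + |t|) ^ δ := Real.rpow_pos_of_pos (by positivity) _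
  have fin := core hNa hNb (acp a hda) (acp b hdb) hWa hWb
    (mul_nonneg (norm_nonneg _) (norm_nonneg _)) hba key' (shift δ t hδ.le hδ2.le) hC2 hP h2
    (Real.exp_pos _) θ0 θ1
  rw [norm_inv, norm_mul]
  exact fin

end Pool.Agent.W305.WM
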